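import Pool.Agent.Work.MP_55ff09_co.Kor.Quo
import Pool.Agent.Work.Tools.GridThm.All
import Pool.Agent.Work.MP_cfa43e_lc.Bd.B03
import Pool.Agent.Work.MP_cfa43e_lc.Bd.B05
import Pool.Agent.Work.MP_cfa43e_lc.Bd.B06
import Pool.Agent.Work.MP_cfa43e_lc.Bd.B07
import Pool.Agent.Work.MP_cfa43e_lc.Reg.S2
import Pool.Agent.Work.MP_cfa43e_lc.Reg.S6

/-!
# Korhonen's induced grid theorem for graphs of bounded degree
-/

set_option autoImplicit false

namespace Pool.Agent.IM55.Kor

open SimpleGraph Pool.Agent.PReg Pool.Agent.PEmb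

theorem gr : PGr := by
  intro K
  obtain ⟨w, hw⟩ := GridThm.grid_minor K
  refine ⟨w, fun {V} _ G hG => ?_⟩
  obtain ⟨B, hB⟩ := hw G hG
  exact ⟨B, ⟨hB.conn, hB.disj, hB.hor, hB.ver⟩⟩

theorem s2 : PS2 := S2 S2a S2b

theorem sall : PS := by
  have s3 : PS3 := S3 S3a S3b
  have s4b : PS4b := S4b S4a
  have s4c : PS4c := S4c S4a s4b
  have s4 : PS4 := S4 S4a s4b s4c
  have s6 : PS6 := S6 P0
  have s9b : PS9b := S9b S8
  have s9 : PS9 := S9 S1 s2 gr S3a s4 s6 S7 S9a s9b e23
  exact Sall s3 S5 s9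

/-- Korhonen's theorem (Grid induced minor theorem for graphs of low degree, 2023), without
bounds: for all `d` and `k` there is a `w` such that every finite graph of maximum degree at most
`d` and of tree width larger than `w` has the `(k + 2) × (k + 2)` grid as an induced minor. -/
theorem korhonen (d k : ℕ) : ∃ w : ℕ, ∀ (V : Type) [Finite V] (G : SimpleGraph V),
    (∀ v, (G.neighborSet v).ncard ≤ d) → ¬ TreeWidthLE G w → IsInducedMinor (grid (k + 2)) G :=
  korhonen_of sall gr S1 s2 F1 d k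

end Pool.Agent.IM55.Kor
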