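import Pool.Agent.Work.MP_55ff09_co.Kor.Main
import Pool.Agent.Work.MP_55ff09_co.TreeWidth
import Pool.Agent.Work.MP_55ff09_co.Stmts
import Pool.Agent.Work.MP_55ff09_co.GridMono

/-!
# Bounded Baker-treewidth
-/

set_option autoImplicit false

namespace Pool.Agent.IM55.Kor

open SimpleGraph

variable {V W : Type}

/-- An induced minor of an induced subgraph is an induced minor. -/
theorem ind_map {V₁ V₂ : Type} {H : SimpleGraph W} {G₁ : SimpleGraph V₁} {G₂ : SimpleGraph V₂}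
    (e : G₁ ↪g G₂) (h : IsInducedMinor H G₁) : IsInducedMinor H G₂ := by
  obtain ⟨X, h1, h2, h3⟩ := h
  refine ⟨fun w => e '' X w, fun w => ?_, fun w w' hw => ?_, fun w w' hw => ?_⟩
  · let f : G₁.induce (X w) →g G₂.induce (e '' X w) :=
      { toFun := fun x => ⟨e x.1, x.1, x.2, rfl⟩
        map_rel' := fun {a b} hab => e.map_rel_iff.mpr hab }
    refine (h1 w).map f ?_
    rintro ⟨_, x, hx, rfl⟩
    exact ⟨⟨x, hx⟩, rfl⟩
  · exact (Set.disjoint_image_iff e.injective).mpr (h2 w w' hw)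
  · rw [h3 w w' hw]
    constructor
    · rintro ⟨x, hx, y, hy, hxy⟩
      exact ⟨e x, ⟨x, hx, rfl⟩, e y, ⟨y, hy, rfl⟩, e.map_rel_iff.mpr hxy⟩
    · rintro ⟨_, ⟨x, hx, rfl⟩, _, ⟨y, hy, rfl⟩, hxy⟩
      exact ⟨x, hx, y, hy, e.map_rel_iff.mp hxy⟩

/-- Restriction of a model to a smaller set that contains all branch sets. -/
theorem ind_restrict {H : SimpleGraph W} {G : SimpleGraph V} {A B : Set V} (hBA : B ⊆ A)
    (X : W → Set A) (h1 : ∀ w, ((G.induce A).induce (X w)).Connected)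
    (h2 : ∀ w w', w ≠ w' → Disjoint (X w) (X w'))
    (h3 : ∀ w w', w ≠ w' → (H.Adj w w' ↔ ∃ x ∈ X w, ∃ y ∈ X w', (G.induce A).Adj x y))
    (hB : ∀ w, ∀ x ∈ X w, x.1 ∈ B) : IsInducedMinor H (G.induce B) := by
  refine ⟨fun w => {y | (⟨y.1, hBA y.2⟩ : A) ∈ X w}, fun w => ?_, fun w w' hw => ?_,
    fun w w' hw => ?_⟩
  · let f : (G.induce A).induce (X w) →g (G.induce B).induce {y | (⟨y.1, hBA y.2⟩ : A) ∈ X w} :=
      { toFun := fun x => ⟨⟨x.1.1, hB w x.1 x.2⟩, x.2⟩
        map_rel' := fun {a b} hab => hab }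
    refine (h1 w).map f ?_
    rintro ⟨⟨y, hy⟩, hy'⟩
    exact ⟨⟨⟨y, hBA hy⟩, hy'⟩, rfl⟩
  · rw [Set.disjoint_left]
    intro y hy hy'
    exact Set.disjoint_left.mp (h2 w w' hw) hy hy'
  · rw [h3 w w' hw]
    constructor
    · rintro ⟨x, hx, y, hy, hxy⟩
      exact ⟨⟨x.1, hB w x hx⟩, hx, ⟨y.1, hB w' y hy⟩, hy, hxy⟩
    · rintro ⟨x, hx, y, hy, hxy⟩
      exact ⟨⟨x.1, hBA x.2⟩, hx, ⟨y.1, hBA y.2⟩, hy, hxy⟩

/-- Distances in a component. -/
theorem dist_comp (G : SimpleGraph V) (c : G.ConnectedComponent) (u v : c.supp) :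
    (G.induce c.supp).dist u v = G.dist u.1 v.1 := by
  classical
  have hr : G.Reachable u.1 v.1 := by
    have hu : G.connectedComponentMk u.1 = c := u.2
    have hv : G.connectedComponentMk v.1 = c := v.2
    exact ConnectedComponent.exact (hu.trans hv.symm)
  apply le_antisymm
  · obtain ⟨p, hp⟩ := hr.exists_walk_length_eq_dist
    have hs : ∀ x ∈ p.support, x ∈ c.supp := by
      intro x hx
      have hxr : G.Reachable u.1 x := (p.takeUntil x hx).reachable
      have hu : G.connectedComponentMk u.1 = c := u.2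
      show G.connectedComponentMk x = c
      rw [← hu]
      exact (ConnectedComponent.sound hxr).symm
    have hl : (p.induce c.supp hs).length = p.length := by
      have h := congrArg Walk.length (Walk.map_induce p hs)
      rw [Walk.length_map] at h
      exact h
    rw [← hp, ← hl]
    exact dist_le _
  · obtain ⟨p⟩ := hr
    have hs : ∀ x ∈ p.support, x ∈ c.supp := by
      intro x hx
      have hxr : G.Reachable u.1 x := (p.takeUntil x hx).reachable
      have hu : G.connectedComponentMk u.1 = c := u.2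
      show G.connectedComponentMk x = c
      rw [← hu]
      exact (ConnectedComponent.sound hxr).symm
    have hr' : (G.induce c.supp).Reachable u v := (p.induce c.supp hs).reachable
    obtain ⟨q, hq⟩ := hr'.exists_walk_length_eq_dist
    rw [← hq, ← Walk.length_map (Embedding.induce c.supp).toHom]
    exact dist_le _

theorem root_reach (G : SimpleGraph V) (ρ : G.ConnectedComponent → V)
    (hρ : ∀ c, G.connectedComponentMk (ρ c) = c) (v : V) :
    G.Reachable (ρ (G.connectedComponentMk v)) v :=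
  ConnectedComponent.exact (hρ _)

theorem bfs_adj (G : SimpleGraph V) (ρ : G.ConnectedComponent → V)
    (hρ : ∀ c, G.connectedComponentMk (ρ c) = c) (u v : V) (h : G.Adj u v) :
    bfs G ρ u ≤ bfs G ρ v + 1 := by
  have hc : G.connectedComponentMk u = G.connectedComponentMk v :=
    ConnectedComponent.sound h.reachable
  unfold bfs
  rw [hc]
  obtain ⟨p, hp⟩ := (root_reach G ρ hρ v).exists_walk_length_eq_dist
  rw [← hp, ← Walk.length_concat p h.symm]
  exact dist_le _

/-- A model of a connected graph lies in one component. -/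
theorem ind_comp {H : SimpleGraph W} (hH : H.Connected) {G : SimpleGraph V} {A : Set V}
    (h : IsInducedMinor H (G.induce A)) :
    ∃ c : G.ConnectedComponent, IsInducedMinor H (G.induce (A ∩ c.supp)) := by
  obtain ⟨X, h1, h2, h3⟩ := h
  have hne : ∀ p, ∃ x : A, x ∈ X p := fun p => by
    obtain ⟨x⟩ := (h1 p).nonempty
    exact ⟨x.1, x.2⟩
  choose x hx using hne
  have hin : ∀ p, ∀ y ∈ X p, G.Reachable (x p).1 y.1 := by
    intro p y hy
    have h := (h1 p).preconnected ⟨x p, hx p⟩ ⟨y, hy⟩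
    let f : (G.induce A).induce (X p) →g G :=
      { toFun := fun z => z.1.1
        map_rel' := fun {a b} hab => hab }
    exact h.map f
  have hadj : ∀ p q, H.Adj p q → G.Reachable (x p).1 (x q).1 := by
    intro p q hpq
    obtain ⟨a, ha, b, hb, hab⟩ := (h3 p q hpq.ne).mp hpq
    have hab' : G.Adj a.1 b.1 := hab
    exact (hin p a ha).trans (hab'.reachable.trans (hin q b hb).symm)
  have hall : ∀ p q, G.Reachable (x p).1 (x q).1 := by
    intro p q
    obtain ⟨w⟩ := hH.preconnected p q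
    induction w with
    | nil => exact Reachable.refl _
    | cons h _ ih => exact (hadj _ _ h).trans ih
  obtain ⟨p0⟩ := hH.nonempty
  refine ⟨G.connectedComponentMk (x p0).1, ind_restrict (A := A) Set.inter_subset_left X h1 h2 h3
      (fun p y hy => ⟨y.2, ?_⟩)⟩
  exact ConnectedComponent.sound ((hall p p0).symm.trans (hin p y hy)).symm

/-- The layers `i, ..., i + ℓ` of a graph that excludes an induced minor contain no large grid as
induced minor, without assuming that the graph is connected. -/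
theorem bfs_grid (hB : ClaimBFS) (m Δ ℓ : ℕ) : ∃ M : ℕ, ∀ (V : Type) [Finite V]
    (G : SimpleGraph V), (∀ v, (G.neighborSet v).ncard ≤ Δ) →
    ∀ ρ : G.ConnectedComponent → V, (∀ c, G.connectedComponentMk (ρ c) = c) → ∀ i : ℕ,
    IsInducedMinor (grid (M + 2)) (G.induce {v | i ≤ bfs G ρ v ∧ bfs G ρ v ≤ i + ℓ}) →
    ∀ H : SimpleGraph (Fin m), IsInducedMinor H G := by
  obtain ⟨M, hM⟩ := hB m Δ ℓ
  refine ⟨M, fun V _ G hG ρ hρ i hgr H => ?_⟩
  have hcon : (grid (M + 2)).Connected :=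
    (pathGraph_connected (M + 1)).boxProd (pathGraph_connected (M + 1))
  obtain ⟨c, hres⟩ := ind_comp hcon hgr
  -- the root
  have hroot : ρ c ∈ c.supp := hρ c
  have hlay : ∀ v : c.supp, (G.induce c.supp).dist ⟨ρ c, hroot⟩ v = bfs G ρ v.1 := by
    intro v
    rw [dist_comp]
    unfold bfs
    have hv : G.connectedComponentMk v.1 = c := v.2
    rw [hv]
  have hres' : IsInducedMinor (grid (M + 2)) ((G.induce c.supp).induce
      {v | i ≤ (G.induce c.supp).dist ⟨ρ c, hroot⟩ v ∧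
        (G.induce c.supp).dist ⟨ρ c, hroot⟩ v ≤ i + ℓ}) := by
    refine ind_map ⟨⟨fun v => ⟨⟨v.1, v.2.2⟩, ?_⟩, ?_⟩, ?_⟩ hres
    · have h : i ≤ bfs G ρ v.1 ∧ bfs G ρ v.1 ≤ i + ℓ := v.2.1
      show i ≤ (G.induce c.supp).dist ⟨ρ c, hroot⟩ ⟨v.1, v.2.2⟩ ∧
        (G.induce c.supp).dist ⟨ρ c, hroot⟩ ⟨v.1, v.2.2⟩ ≤ i + ℓ
      rw [hlay]
      exact h
    · intro a b hab
      have h := congrArg (fun z => z.1.1) hab
      exact Subtype.ext h
    · intro a b
      exact Iff.rfl
  have hdeg : DegLe (G.induce c.supp) Δ := by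
    intro v
    refine le_trans ?_ (hG v.1)
    rw [← Set.ncard_image_of_injective _ (Subtype.val_injective (p := (· ∈ c.supp)))]
    refine Set.ncard_le_ncard ?_ (Set.toFinite _)
    rintro _ ⟨w, hw, rfl⟩
    exact hw
  have hconn : (G.induce c.supp).Connected := c.connected_toSimpleGraph
  have hfin := hM c.supp inferInstance (G.induce c.supp) hdeg hconn ⟨ρ c, hroot⟩ i
    (grid_mono (by omega) hres') H
  exact ind_map (Embedding.induce c.supp) hfin

theorem deg_induce {G : SimpleGraph V} [Finite V] {Δ : ℕ}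
    (hG : ∀ v, (G.neighborSet v).ncard ≤ Δ) (A : Set V) :
    ∀ v, ((G.induce A).neighborSet v).ncard ≤ Δ := by
  intro v
  refine le_trans ?_ (hG v.1)
  rw [← Set.ncard_image_of_injective _ (Subtype.val_injective (p := (· ∈ A)))]
  refine Set.ncard_le_ncard ?_ (Set.toFinite _)
  rintro _ ⟨w, hw, rfl⟩
  exact hw

/-- Bounded Baker-treewidth from the grid statements. -/
theorem baker_of (hM : ClaimMain) (hB : ClaimBFS) (m : ℕ) (H : SimpleGraph (Fin m)) (Δ : ℕ) :
    ∃ f : ℕ → ℕ, ∀ (V : Type) [Finite V] (G : SimpleGraph V), ¬ IsInducedMinor H G →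
      (∀ v, (G.neighborSet v).ncard ≤ Δ) →
      (∀ S : Set V, (G.induce S).Connected →
        ∀ ℓ : ℕ, TreewidthLE (G.induce (annulus G S ℓ)) (f ℓ)) ∧
      ∀ ρ : G.ConnectedComponent → V, (∀ c, G.connectedComponentMk (ρ c) = c) →
        (∀ u v, G.Adj u v → bfs G ρ u ≤ bfs G ρ v + 1) ∧
        ∀ i ℓ : ℕ, TreewidthLE (G.induce {v | i ≤ bfs G ρ v ∧ bfs G ρ v ≤ i + ℓ}) (f ℓ) := by
  have hall : ∀ ℓ : ℕ, ∃ w : ℕ, ∀ (V : Type) [Finite V] (G : SimpleGraph V),
      ¬ IsInducedMinor H G → (∀ v, (G.neighborSet v).ncard ≤ Δ) →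
      (∀ S : Set V, (G.induce S).Connected → TreewidthLE (G.induce (annulus G S ℓ)) w) ∧
      ∀ ρ : G.ConnectedComponent → V, (∀ c, G.connectedComponentMk (ρ c) = c) →
      ∀ i : ℕ, TreewidthLE (G.induce {v | i ≤ bfs G ρ v ∧ bfs G ρ v ≤ i + ℓ}) w := by
    intro ℓ
    obtain ⟨M₁, h₁⟩ := hM m Δ ℓ
    obtain ⟨M₃, h₃⟩ := bfs_grid hB m Δ ℓ
    obtain ⟨w, hw⟩ := korhonen Δ (max M₁ M₃)
    refine ⟨w, fun V _ G hG hΔ => ⟨fun S hS => ?_, fun ρ hρ i => ?_⟩⟩
    · by_contra hcon
      exact hG (h₁ V inferInstance G hΔ S hS (grid_mono (by omega)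
        (hw _ _ (deg_induce hΔ _) hcon)) H)
    · by_contra hcon
      exact hG (h₃ V G hΔ ρ hρ i (grid_mono (by omega)
        (hw _ _ (deg_induce hΔ _) hcon)) H)
  choose f hf using hall
  exact ⟨f, fun V _ G hG hΔ => ⟨fun S hS ℓ => (hf ℓ V G hG hΔ).1 S hS,
    fun ρ hρ => ⟨bfs_adj G ρ hρ, fun i ℓ => (hf ℓ V G hG hΔ).2 ρ hρ i⟩⟩⟩

end Pool.Agent.IM55.Kor
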