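import Pool.Agent.Work.MP_55ff09_co.Kor.Trim
import Pool.Agent.Work.MP_cfa43e_lc.Reg.Stmts

/-!
# The induced grid theorem for graphs of bounded degree: quotients
-/

set_option autoImplicit false

namespace Pool.Agent.IM55.Kor

open SimpleGraph Pool.Agent.PReg Pool.Agent.PEmb

variable {V V' W : Type}

theorem conn_preimage (G : SimpleGraph V) (π : V → V') (hπ : Function.Surjective π)
    (hf : ∀ a, (G.induce (π ⁻¹' {a})).Connected) (S : Set V')
    (hS : ((quo G π).induce S).Connected) : (G.induce (π ⁻¹' S)).Connected := by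
  have h0 : ∀ a (ha : a ∈ S) u v (hu : π u = a) (hv : π v = a),
      (G.induce (π ⁻¹' S)).Reachable ⟨u, by simpa [hu] using ha⟩ ⟨v, by simpa [hv] using ha⟩ := by
    intro a ha u v hu hv
    have hr := (hf a).preconnected ⟨u, hu⟩ ⟨v, hv⟩
    have hsub : ∀ x : (π ⁻¹' {a} : Set V), x.1 ∈ π ⁻¹' S := by
      intro x
      have hx : π x.1 = a := x.2
      rw [Set.mem_preimage, hx]
      exact ha
    let f : G.induce (π ⁻¹' {a}) →g G.induce (π ⁻¹' S) :=
      { toFun := fun x => ⟨x.1, hsub x⟩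
        map_rel' := fun h => h }
    exact hr.map f
  have h1 : ∀ a b : S, ((quo G π).induce S).Walk a b → ∀ u v (hu : π u = a.1) (hv : π v = b.1),
      (G.induce (π ⁻¹' S)).Reachable ⟨u, by simp [hu]⟩ ⟨v, by simp [hv]⟩ := by
    intro a b p
    induction p with
    | nil => intro u v hu hv; exact h0 _ (Subtype.property _) u v hu hv
    | @cons a c b h q ih =>
      intro u v hu hv
      obtain ⟨-, x, y, hx, hy, hxy⟩ : (quo G π).Adj a.1 c.1 := h
      have r1 := h0 a.1 a.2 u x hu hx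
      have r2 := ih y v hy hv
      have r3 : (G.induce (π ⁻¹' S)).Adj ⟨x, by simp [hx]⟩
          ⟨y, by simp [hy]⟩ := hxy
      exact r1.trans (r3.reachable.trans r2)
  refine (connected_iff _).mpr ⟨?_, ?_⟩
  · rintro ⟨u, hu⟩ ⟨v, hv⟩
    obtain ⟨p⟩ := hS.preconnected ⟨π u, hu⟩ ⟨π v, hv⟩
    exact h1 _ _ p u v rfl rfl
  · obtain ⟨⟨a, ha⟩⟩ := hS.nonempty
    obtain ⟨u, hu⟩ := hπ a
    exact ⟨⟨u, by simpa [hu] using ha⟩⟩

/-- Contraction of connected sets. -/
theorem ind_of_quo (H : SimpleGraph W) (G : SimpleGraph V) (π : V → V')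
    (hπ : Function.Surjective π) (hf : ∀ a, (G.induce (π ⁻¹' {a})).Connected)
    (h : IsInducedMinor H (quo G π)) : IsInducedMinor H G := by
  obtain ⟨X, h1, h2, h3⟩ := h
  refine ⟨fun w => π ⁻¹' X w, fun w => conn_preimage G π hπ hf _ (h1 w), fun w w' hw =>
    (h2 w w' hw).preimage π, fun w w' hw => ?_⟩
  rw [h3 w w' hw]
  constructor
  · rintro ⟨a, ha, b, hb, -, x, y, hx, hy, hxy⟩
    exact ⟨x, by simpa [hx] using ha, y, by simpa [hy] using hb, hxy⟩
  · rintro ⟨x, hx, y, hy, hxy⟩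
    refine ⟨π x, hx, π y, hy, ?_, x, y, rfl, rfl, hxy⟩
    intro e
    exact Set.disjoint_left.mp (h2 w w' hw) hx (by rw [e]; exact hy)

/-- Deletion of vertices. -/
theorem ind_of_rs (H : SimpleGraph W) (hH : ∀ h, ∃ a, H.Adj h a) (G : SimpleGraph V) (S : Set V)
    (h : IsInducedMinor H (rs G S)) : IsInducedMinor H G := by
  obtain ⟨X, h1, h2, h3⟩ := h
  have hsub : ∀ w, X w ⊆ S := by
    intro w x hx
    by_contra hxS
    obtain ⟨a, ha⟩ := hH w
    obtain ⟨u, hu, v, hv, huv⟩ := (h3 w a ha.ne).mp ha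
    by_cases hux : u = x
    · subst hux
      exact hxS huv.2.1
    · obtain ⟨p⟩ := (h1 w).preconnected ⟨x, hx⟩ ⟨u, hu⟩
      cases p with
      | nil => exact hux rfl
      | cons hz _ =>
        have hz' : (rs G S).Adj _ _ := hz
        exact hxS hz'.2.1
  refine ⟨X, fun w => ?_, h2, fun w w' hw => ?_⟩
  · refine (h1 w).mono ?_
    intro a b hab
    exact hab.1
  · rw [h3 w w' hw]
    constructor
    · rintro ⟨x, hx, y, hy, hxy⟩
      exact ⟨x, hx, y, hy, hxy.1⟩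
    · rintro ⟨x, hx, y, hy, hxy⟩
      exact ⟨x, hx, y, hy, hxy, hsub w hx, hsub w' hy⟩

/-- The class map. -/
def clm (G : SimpleGraph V) (x : V) : Set.range (cl G) := ⟨cl G x, x, rfl⟩

theorem clm_surj (G : SimpleGraph V) : Function.Surjective (clm G) := by
  rintro ⟨_, x, rfl⟩
  exact ⟨x, rfl⟩

theorem fib_eq (G : SimpleGraph V) (hE : Equivalence (Eqv G)) (x : V) :
    clm G ⁻¹' {clm G x} = cl G x := by
  ext y
  simp only [Set.mem_preimage, Set.mem_singleton_iff, clm]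
  constructor
  · intro h
    have h' : cl G y = cl G x := congrArg Subtype.val h
    rw [← h']
    exact hE.refl y
  · intro h
    apply Subtype.ext
    ext z
    exact ⟨fun hz => hE.trans h hz, fun hz => hE.trans (hE.symm h) hz⟩

theorem fib_conn (G : SimpleGraph V) (hE : Equivalence (Eqv G)) (a : Set.range (cl G)) :
    (G.induce (clm G ⁻¹' {a})).Connected := by
  obtain ⟨x, rfl⟩ := clm_surj G a
  rw [fib_eq G hE x]
  have hx : x ∈ cl G x := hE.refl x
  have key : ∀ y (hy : y ∈ cl G x), (G.induce (cl G x)).Reachable ⟨x, hx⟩ ⟨y, hy⟩ := by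
    intro y hy
    rcases hy with rfl | ⟨h, -, -⟩
    · exact Reachable.refl _
    · have : (G.induce (cl G x)).Adj ⟨x, hx⟩ ⟨y, Or.inr ⟨h, by assumption, by assumption⟩⟩ := h
      exact this.reachable
  refine (connected_iff _).mpr ⟨?_, ⟨⟨x, hx⟩⟩⟩
  rintro ⟨u, hu⟩ ⟨v, hv⟩
  exact (key u hu).symm.trans (key v hv)

/-- The quotient of a graph with satisfied vertices: every edge has an end of degree at most `2`. -/
theorem quo_deg (f1 : PF1) [Finite V] (G : SimpleGraph V) (hS : ∀ v, Sat G v)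
    (a b : Set.range (cl G)) (hab : (quo G (clm G)).Adj a b) :
    ((quo G (clm G)).neighborSet a).ncard ≤ 2 ∨ ((quo G (clm G)).neighborSet b).ncard ≤ 2 := by
  obtain ⟨hE, -, h3⟩ := f1 G hS
  have key : ∀ x : V, dg G x ≤ 2 → cl G x = {x} →
      ((quo G (clm G)).neighborSet (clm G x)).ncard ≤ 2 := by
    intro x hd hc
    have hsub : (quo G (clm G)).neighborSet (clm G x) ⊆ clm G '' G.neighborSet x := by
      rintro c ⟨-, x', y', hx', rfl, hxy⟩
      have hx'' : x' ∈ clm G ⁻¹' {clm G x} := hx'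
      rw [fib_eq G hE x, hc] at hx''
      rw [Set.mem_singleton_iff.mp hx''] at hxy
      exact ⟨y', hxy, rfl⟩
    calc _ ≤ (clm G '' G.neighborSet x).ncard := Set.ncard_le_ncard hsub (Set.toFinite _)
      _ ≤ (G.neighborSet x).ncard := Set.ncard_image_le (Set.toFinite _)
      _ ≤ 2 := hd
  obtain ⟨hne, x, y, rfl, rfl, hxy⟩ := hab
  have hnE : ¬ Eqv G x y := by
    intro h
    apply hne
    have : y ∈ clm G ⁻¹' {clm G x} := by
      rw [fib_eq G hE x]
      exact h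
    exact (Set.mem_singleton_iff.mp this).symm
  rcases h3 x y hxy hnE with ⟨h, h'⟩ | ⟨h, h'⟩
  · exact Or.inl (key x h h')
  · exact Or.inr (key y h h')

theorem grid_two (k : ℕ) (hk : 2 ≤ k) (p : Fin k × Fin k) :
    ∃ a b, a ≠ b ∧ (grid k).Adj p a ∧ (grid k).Adj p b := by
  obtain ⟨⟨i, hi⟩, ⟨j, hj⟩⟩ := p
  have h1 : ∀ i (hi : i < k), ∃ i', ∃ hi' : i' < k, (pathGraph k).Adj ⟨i, hi⟩ ⟨i', hi'⟩ := by
    intro i hi
    by_cases h : i + 1 < k
    · exact ⟨i + 1, h, by simp [pathGraph_adj]⟩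
    · exact ⟨i - 1, by omega, by simp only [pathGraph_adj]; omega⟩
  obtain ⟨i', hi', hii⟩ := h1 i hi
  obtain ⟨j', hj', hjj⟩ := h1 j hj
  refine ⟨(⟨i', hi'⟩, ⟨j, hj⟩), (⟨i, hi⟩, ⟨j', hj'⟩), ?_, ?_, ?_⟩
  · intro e
    simp only [Prod.mk.injEq] at e
    rw [e.1] at hii
    exact hii.ne rfl
  · simp only [grid, boxProd_adj]
    exact Or.inl ⟨hii, trivial⟩
  · simp only [grid, boxProd_adj]
    exact Or.inr ⟨hjj, trivial⟩

theorem model_of_grid (Q : SimpleGraph V) (k : ℕ) (B : ℕ → ℕ → Set V) (hB : Grid Q k B) :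
    Model (grid k) Q (fun p => B p.1 p.2) := by
  refine ⟨fun p => hB.conn _ _ p.1.2 p.2.2, fun p q hpq => ?_, fun p q hpq => ?_⟩
  · refine hB.disj _ _ _ _ p.1.2 p.2.2 q.1.2 q.2.2 ?_
    intro e
    simp only [Prod.mk.injEq] at e
    exact hpq (Prod.ext (Fin.ext e.1) (Fin.ext e.2))
  · obtain ⟨⟨i, hi⟩, ⟨j, hj⟩⟩ := p
    obtain ⟨⟨i', hi'⟩, ⟨j', hj'⟩⟩ := q
    simp only [grid, boxProd_adj, pathGraph_adj, Fin.mk.injEq] at hpq
    rcases hpq with ⟨h | h, rfl⟩ | ⟨h | h, rfl⟩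
    · subst h
      exact hB.hor i j hi' hj
    · subst h
      obtain ⟨a, ha, b, hb, hab⟩ := hB.hor i' j hi hj
      exact ⟨b, hb, a, ha, hab.symm⟩
    · subst h
      exact hB.ver i j hi hj'
    · subst h
      obtain ⟨a, ha, b, hb, hab⟩ := hB.ver i j' hi hj
      exact ⟨b, hb, a, ha, hab.symm⟩

/-- Korhonen's induced grid theorem: in graphs of bounded degree and large tree width there is a
large grid as an induced minor. -/
theorem korhonen_of (ps : PS) (gr : PGr) (s1 : PS1) (s2 : PS2) (f1 : PF1) (d k : ℕ) :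
    ∃ w : ℕ, ∀ (V : Type) [Finite V] (G : SimpleGraph V), (∀ v, (G.neighborSet v).ncard ≤ d) →
      ¬ TreeWidthLE G w → IsInducedMinor (grid (k + 2)) G := by
  obtain ⟨w3, hw3⟩ := gr (k + 2)
  obtain ⟨K1, hK1⟩ := ps d (3 * (w3 + 1) + 2)
  obtain ⟨w, hw⟩ := gr K1
  refine ⟨w, fun V _ G hd htw => ?_⟩
  obtain ⟨B, hB⟩ := hw G htw
  obtain ⟨S, ⟨B', hB'⟩, hSat⟩ := hK1 G hd B hB
  have hF := f1 (rs G S) hSat
  -- the quotient has large tree width
  have htw3 : ¬ TreeWidthLE (quo (rs G S) (clm (rs G S))) w3 := by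
    intro h
    have h3 := s1 (rs G S) (clm (rs G S)) 3 w3 (fun a => by
      obtain ⟨x, rfl⟩ := clm_surj (rs G S) a
      rw [fib_eq _ hF.1 x, ← (Set.toFinite (cl (rs G S) x)).cast_ncard_eq]
      exact_mod_cast hF.2.1 x) h
    have := s2 (rs G S) _ _ B' h3 hB'
    omega
  obtain ⟨B3, hB3⟩ := hw3 _ htw3
  apply ind_of_rs (grid (k + 2)) (fun p => ?_) G S
  · apply ind_of_quo (grid (k + 2)) (rs G S) (clm (rs G S)) (clm_surj _) (fib_conn _ hF.1)
    exact induced_of_minor (grid (k + 2)) _ (grid_two (k + 2) (by omega))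
      (quo_deg f1 (rs G S) hSat) _ (model_of_grid _ _ B3 hB3)
  · obtain ⟨a, -, -, h, -⟩ := grid_two (k + 2) (by omega) p
    exact ⟨a, h⟩

end Pool.Agent.IM55.Kor
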