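import Pool.Agent.Work.MP_55ff09_co.Basic

set_option autoImplicit false

namespace Pool.Agent.IM55.Kor

open SimpleGraph

theorem leaf_remove {V : Type} (Q : SimpleGraph V) (S : Set V) (x : V)
    (hS : (Q.induce S).Connected) (hne : (S \ {x}).Nonempty)
    (h1 : ∀ u v, u ∈ S → v ∈ S → Q.Adj x u → Q.Adj x v → u = v) :
    (Q.induce (S \ {x})).Connected := by
  have hpre : ((Q.induce S).induce {v : S | v.1 ≠ x}).Preconnected := by
    apply hS.preconnected.induce_of_degree_eq_one
    rintro ⟨v, hvS⟩ hv ⟨a, haS⟩ ha ⟨b, hbS⟩ hb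
    have hvx : v = x := by simpa using hv
    subst hvx
    exact Subtype.ext (h1 a b haS hbS ha hb)
  refine (connected_iff _).mpr ⟨?_, ⟨⟨_, hne.some_mem⟩⟩⟩
  let f : ((Q.induce S).induce {v : S | v.1 ≠ x}) →g Q.induce (S \ {x}) :=
    { toFun := fun v => ⟨v.1.1, v.1.2, v.2⟩
      map_rel' := fun h => h }
  refine hpre.map f ?_
  rintro ⟨v, hvS, hvx⟩
  exact ⟨⟨⟨v, hvS⟩, hvx⟩, rfl⟩

/-- A minor model. -/
def Model {W V : Type} (H : SimpleGraph W) (G : SimpleGraph V) (X : W → Set V) : Prop :=
  (∀ h, (G.induce (X h)).Connected) ∧ (∀ h h', h ≠ h' → Disjoint (X h) (X h')) ∧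
    (∀ h h', H.Adj h h' → ∃ x ∈ X h, ∃ y ∈ X h', G.Adj x y)

/-- In a graph in which every edge has an end of degree at most two, every minor of minimum degree
at least two is an induced minor. -/
theorem induced_of_minor {W V : Type} [Finite W] [Finite V] (H : SimpleGraph W) (Q : SimpleGraph V)
    (h2 : ∀ h, ∃ a b, a ≠ b ∧ H.Adj h a ∧ H.Adj h b)
    (hQ : ∀ x y, Q.Adj x y → (Q.neighborSet x).ncard ≤ 2 ∨ (Q.neighborSet y).ncard ≤ 2)
    (X : W → Set V) (hX : Model H Q X) : IsInducedMinor H Q := by
  classical
  cases nonempty_fintype W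
  -- a model of minimal size
  obtain ⟨X, hX, hmin⟩ : ∃ X : W → Set V, Model H Q X ∧ ∀ Y : W → Set V, Model H Q Y →
      ∑ h, (X h).ncard ≤ ∑ h, (Y h).ncard := by
    have := WellFounded.has_min (measure (fun X : W → Set V => ∑ h, (X h).ncard)).wf
      {X | Model H Q X} ⟨X, hX⟩
    obtain ⟨X, hX, hm⟩ := this
    exact ⟨X, hX, fun Y hY => not_lt.mp (hm Y hY)⟩
  refine ⟨X, hX.1, hX.2.1, fun h h' hne => ⟨hX.2.2 h h', ?_⟩⟩
  -- key: an unwanted edge whose first end has degree at most two
  have key : ∀ h h', h ≠ h' → ¬ H.Adj h h' → ∀ x ∈ X h, ∀ y ∈ X h', Q.Adj x y →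
      (Q.neighborSet x).ncard ≤ 2 → False := by
    intro h h' hne hna x hx y hy hxy hdeg
    have hdis : ∀ g g' : W, g ≠ g' → ∀ u ∈ X g, u ∉ X g' := fun g g' hg u hu hu' =>
      Set.disjoint_left.mp (hX.2.1 g g' hg) hu hu'
    -- three distinct neighbours are impossible
    have h3 : ∀ a b c, Q.Adj x a → Q.Adj x b → Q.Adj x c → a ≠ b → a ≠ c → b ≠ c → False := by
      intro a b c ha hb hc hab hac hbc
      have hs : ({a, b, c} : Set V) ⊆ Q.neighborSet x := by
        intro z hz
        simp only [Set.mem_insert_iff, Set.mem_singleton_iff] at hz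
        rcases hz with rfl | rfl | rfl <;> assumption
      have := Set.ncard_le_ncard hs (Set.toFinite _)
      have hc3 : ({a, b, c} : Set V).ncard = 3 := by
        rw [Set.ncard_eq_three]
        exact ⟨a, b, c, hab, hac, hbc, rfl⟩
      omega
    -- the edges at `x` are not needed
    have hne' : ∀ g, H.Adj h g → ∃ u ∈ X h \ {x}, ∃ v ∈ X g, Q.Adj u v := by
      intro g hg
      obtain ⟨u, hu, v, hv, huv⟩ := hX.2.2 h g hg
      by_cases hux : u = x
      · subst hux
        exfalso
        have hgh : h ≠ g := hg.ne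
        have hgh' : g ≠ h' := fun e => hna (e ▸ hg)
        have hvy : v ≠ y := fun e => hdis g h' hgh' v hv (e ▸ hy)
        -- `X h = {u}`
        have hsing : ∀ w ∈ X h, w = u := by
          intro w hw
          by_contra hwu
          obtain ⟨p⟩ := (hX.1 h).preconnected ⟨u, hu⟩ ⟨w, hw⟩
          cases p with
          | nil => exact hwu rfl
          | @cons _ z _ hz _ =>
            have hz' : Q.Adj u z.1 := hz
            exact h3 y v z.1 hxy huv hz' hvy.symm
              (fun e => hdis h h' hne z.1 z.2 (e ▸ hy)) (fun e => hdis h g hgh z.1 z.2 (e ▸ hv))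
        obtain ⟨a, b, hab, ha, hb⟩ := h2 h
        obtain ⟨g2, hg2, hgg2⟩ : ∃ g2, H.Adj h g2 ∧ g2 ≠ g := by
          by_cases hag : a = g
          · exact ⟨b, hb, fun e => hab (hag.trans e.symm)⟩
          · exact ⟨a, ha, hag⟩
        obtain ⟨u2, hu2, v2, hv2, huv2⟩ := hX.2.2 h g2 hg2
        rw [hsing u2 hu2] at huv2
        have hg2h' : g2 ≠ h' := fun e => hna (e ▸ hg2)
        exact h3 y v v2 hxy huv huv2 hvy.symm (fun e => hdis g2 h' hg2h' v2 hv2 (e ▸ hy))
          (fun e => hdis g2 g hgg2 v2 hv2 (e ▸ hv))
      · exact ⟨u, ⟨hu, hux⟩, v, hv, huv⟩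
    -- remove `x`
    have hlt := hmin (Function.update X h (X h \ {x})) ?_
    · have h1 : ∑ g, (Function.update X h (X h \ {x}) g).ncard < ∑ g, (X g).ncard := by
        apply Finset.sum_lt_sum
        · intro g _
          by_cases hg : g = h
          · subst hg
            simp only [Function.update_self]
            exact Set.ncard_le_ncard Set.sdiff_subset (Set.toFinite _)
          · rw [Function.update_of_ne hg]
        · refine ⟨h, Finset.mem_univ _, ?_⟩
          simp only [Function.update_self]
          exact Set.ncard_sdiff_singleton_lt_of_mem hx (Set.toFinite _)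
      omega
    · refine ⟨fun g => ?_, fun g g' hg => ?_, fun g g' hg => ?_⟩
      · by_cases hg : g = h
        · subst hg
          rw [Function.update_self]
          apply leaf_remove Q (X g) x (hX.1 g)
          · obtain ⟨a, b, hab, ha, hb⟩ := h2 g
            obtain ⟨u, hu, -⟩ := hne' a ha
            exact ⟨u, hu⟩
          · intro u v hu hv hxu hxv
            by_contra huv
            exact h3 y u v hxy hxu hxv (fun e => hdis g h' hne u hu (e ▸ hy))
              (fun e => hdis g h' hne v hv (e ▸ hy)) huv
        · rw [Function.update_of_ne hg]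
          exact hX.1 g
      · refine (hX.2.1 g g' hg).mono ?_ ?_
        · by_cases hg : g = h
          · subst hg
            simp only [Function.update_self]
            exact Set.sdiff_subset
          · rw [Function.update_of_ne hg]
        · by_cases hg : g' = h
          · subst hg
            simp only [Function.update_self]
            exact Set.sdiff_subset
          · rw [Function.update_of_ne hg]
      · by_cases hgh : g = h
        · subst hgh
          have hg' : g' ≠ g := hg.ne'
          simp only [Function.update_self, Function.update_of_ne hg']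
          exact hne' g' hg
        · by_cases hgh' : g' = h
          · subst hgh'
            simp only [Function.update_self, Function.update_of_ne hgh]
            obtain ⟨u, hu, v, hv, huv⟩ := hne' g hg.symm
            exact ⟨v, hv, u, hu, huv.symm⟩
          · rw [Function.update_of_ne hgh, Function.update_of_ne hgh']
            exact hX.2.2 g g' hg
  rintro ⟨x, hx, y, hy, hxy⟩
  by_contra hna
  rcases hQ x y hxy with hd | hd
  · exact key h h' hne hna x hx y hy hxy hd
  · exact key h' h hne.symm (fun e => hna e.symm) y hy x hx hxy.symm hd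

end Pool.Agent.IM55.Kor
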